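import Pool.Agent.N594.CT.Stm4

/-!
# CT/CLM: the derived graph of a sample without large independent sets is in the class,
arbitrary numbers `m` of vertices (modification of Pool/Agent/N527/CT/CL.lean)
-/

set_option autoImplicit false

open Finset
open scoped Classical

namespace Pool.Agent.N407.CT.CLM

open Pool.Agent.N594.CT

/-- sum of the weights of the sample -/
lemma sum_weights (s M : ℕ) (hs : 0 < s) :
    ∑ i : Fin s, (M / s + if (i : ℕ) < M % s then 1 else 0) = M := by
  rw [Finset.sum_add_distrib, Finset.sum_const, Finset.card_univ, Fintype.card_fin,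
    smul_eq_mul, Finset.sum_boole]
  have h1 : (univ.filter fun i : Fin s => (i : ℕ) < M % s).card = M % s := by
    have h2 : M % s ≤ s := (Nat.mod_lt _ hs).le
    have h3 := Fin.card_filter_val_lt (n := s) (m := M % s)
    rw [h3]
    exact min_eq_right h2
  simp only [Nat.cast_id]
  rw [h1]
  exact Nat.div_add_mod M s

/-- the real inequality giving many elements in `R` -/
lemma ineq1 {k q q' m' b M s x c mm : ℝ} {δ : ℝ} (hk : 1 ≤ k) (hδ : 0 < δ) (hq : 0 ≤ q)
    (hm : m' = k * (q' - 1) + 1) (hM : M = mm - m' * b) (hb1 : 1 ≤ b) (hm1 : 1 ≤ m')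
    (hc : c ≤ k) (hmm : mm ≤ (k + c) * q)
    (hb : c * q + 2 * k ^ 2 * δ * q + (1 + k * δ) * s + 1 ≤ b)
    (hx : x ≤ (1 / k + δ) * (M + s)) :
    x + (q' - 1) * b < q := by
  have hk0 : 0 < k := by linarith
  have hmb : 0 ≤ m' * b := by positivity
  have hcq : c * q ≤ k * q := mul_le_mul_of_nonneg_right hc hq
  have h1 : M ≤ 2 * k * q := by
    rw [hM]
    have : (k + c) * q = k * q + c * q := by ring
    linarith
  have h3 : δ * M ≤ δ * (2 * k * q) := mul_le_mul_of_nonneg_left h1 hδ.le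
  have h4 : (1 / k + δ) * (M + s) = (M + s) / k + δ * M + δ * s := by
    field_simp
    ring
  have h5 : (M + s) / k = mm / k - (q' - 1) * b - b / k + s / k := by
    rw [hM, hm]
    field_simp
    ring
  have h5' : mm / k ≤ q + c * q / k := by
    rw [div_le_iff₀ hk0]
    have : (q + c * q / k) * k = (k + c) * q := by
      field_simp
    rw [this]
    exact hmm
  have h6 : c * q / k + 2 * k * δ * q + (1 / k + δ) * s + 1 / k ≤ b / k := by
    rw [le_div_iff₀ hk0]
    calc (c * q / k + 2 * k * δ * q + (1 / k + δ) * s + 1 / k) * k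
        = c * q + 2 * k ^ 2 * δ * q + (1 + k * δ) * s + 1 := by
          field_simp
      _ ≤ b := hb
  have h7 : 0 < 1 / k := by positivity
  have h8 : (1 / k + δ) * s = s / k + δ * s := by ring
  rw [h8] at h6
  rw [h4, h5] at hx
  nlinarith

/-- the first contradiction -/
lemma step1 {k q q' m' b M s IS IR c mm : ℝ} {δ : ℝ} (hk : 1 ≤ k) (hδ : 0 < δ) (hq : 0 ≤ q)
    (hs0 : 0 < s)
    (hm : m' = k * (q' - 1) + 1)
    (hM : M = mm - m' * b) (hb1 : 1 ≤ b) (hm1 : 1 ≤ m') (hM0 : 0 ≤ M)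
    (hc : c ≤ k) (hmm : mm ≤ (k + c) * q)
    (hb : c * q + 2 * k ^ 2 * δ * q + (1 + k * δ) * s + 1 ≤ b)
    (hISc : IS ≤ (1 / k + δ) * s) (h1 : IR ≤ q' - 1)
    (hwtR : q * s ≤ IS * (M + s) + IR * b * s) : False := by
  have h2 : IS * (M + s) / s ≤ (1 / k + δ) * (M + s) := by
    rw [div_le_iff₀ hs0]
    have := mul_le_mul_of_nonneg_right hISc (by linarith : (0 : ℝ) ≤ M + s)
    linarith
  have h3 := ineq1 (q := q) (q' := q') (m' := m') (b := b) (M := M) (s := s) hk hδ hq hm hM hb1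
    hm1 hc hmm hb h2
  have h5 : q ≤ (IS * (M + s) + IR * b * s) / s := by
    rw [le_div_iff₀ hs0]
    exact hwtR
  have h6 : (IS * (M + s) + IR * b * s) / s = IS * (M + s) / s + IR * b := by
    rw [add_div, mul_div_cancel_right₀ _ hs0.ne']
  rw [h6] at h5
  have h7 : IR * b ≤ (q' - 1) * b := mul_le_mul_of_nonneg_right h1 (by linarith)
  linarith

/-- the second contradiction -/
lemma step2 {k q m' b M s C0 IS IR c mm : ℝ} {δ : ℝ} (hk1 : 1 ≤ k) (hδ : 0 < δ) (hs0 : 0 < s)
    (hq : 0 ≤ q) (hMR : M = mm - m' * b) (hb1 : 1 ≤ b) (hm'0 : 1 ≤ m') (hM0 : 0 ≤ M)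
    (hc0 : 0 ≤ c) (hmm : mm ≤ (k + c) * q)
    (h4 : 8 * k ^ 2 * m' * δ ≤ 1)
    (hmb : m' * b + c * q ≤ 3 * (m' * k ^ 2 * δ * q) + C0)
    (hqR2 : C0 + s ≤ m' * k ^ 2 * δ * q) (h1 : IR ≤ m')
    (hwtR : q * s ≤ IS * (M + s) + IR * b * s)
    (hcon : IS < (1 / k - 4 * k * m' * δ) * s) : False := by
  have hk0 : 0 < k := by linarith
  have h2 : IR * b * s ≤ m' * b * s := by
    apply mul_le_mul_of_nonneg_right _ hs0.le
    exact mul_le_mul_of_nonneg_right h1 (by linarith)
  have h3 : IS * (M + s) < (1 / k - 4 * k * m' * δ) * s * (M + s) :=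
    mul_lt_mul_of_pos_right hcon (by linarith)
  have h5 : 0 < 1 / k - 4 * k * m' * δ := by
    have e : 1 / k - 4 * k * m' * δ = (1 - 4 * k ^ 2 * m' * δ) / k := by
      field_simp
    rw [e]
    apply div_pos _ hk0
    linarith
  have hmb0 : 0 ≤ m' * b := by positivity
  have h6 : M + s ≤ (k + c) * q + s := by
    rw [hMR]
    linarith
  have h7 : (1 / k - 4 * k * m' * δ) * s * (M + s) ≤
      (1 / k - 4 * k * m' * δ) * s * ((k + c) * q + s) :=
    mul_le_mul_of_nonneg_left h6 (by positivity)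
  have h8 : (1 / k - 4 * k * m' * δ) * s * ((k + c) * q + s) =
      (q + c * q / k + s / k - 4 * (m' * k ^ 2 * δ * q) - 4 * k * m' * δ * (c * q)
        - 4 * k * m' * δ * s) * s := by
    field_simp
    ring
  have h9 : (q + c * q / k + s / k - 4 * (m' * k ^ 2 * δ * q) - 4 * k * m' * δ * (c * q)
        - 4 * k * m' * δ * s) ≤ q - m' * b := by
    have h10 : s / k ≤ s := div_le_self hs0.le hk1
    have h10' : c * q / k ≤ c * q := div_le_self (by positivity) hk1
    have h11 : 0 ≤ 4 * k * m' * δ * s := by positivity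
    have h11' : 0 ≤ 4 * k * m' * δ * (c * q) := by positivity
    linarith
  have h12 := mul_le_mul_of_nonneg_right h9 hs0.le
  have h13 : (q - m' * b) * s = q * s - m' * b * s := by ring
  linarith

theorem main (hW : S_WM) : Pool.Agent.N594.CT.S_CLM := by
  intro l k q' s δ hl hk hq' hs hδ h4
  set m' : ℕ := k * (q' - 1) + 1 with hm'
  have hm'1 : 1 ≤ m' := by omega
  set C0 : ℝ := m' * ((1 + k * δ) * s + 2) with hC0
  have hk0 : (0 : ℝ) < k := by exact_mod_cast hk
  have hk1 : (1 : ℝ) ≤ k := by exact_mod_cast hk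
  have hs0 : (0 : ℝ) < s := by exact_mod_cast hs
  have hm'0 : (1 : ℝ) ≤ m' := by exact_mod_cast hm'1
  have hC0pos : 0 < C0 := by positivity
  have hA : 0 < (m' : ℝ) * k ^ 2 * δ := by positivity
  set A : ℝ := (m' : ℝ) * k ^ 2 * δ with hAdef
  have hA8 : 8 * A ≤ 1 := by
    have : 8 * A = 8 * (k : ℝ) ^ 2 * m' * δ := by rw [hAdef]; ring
    rw [this]
    exact h4
  set c : ℝ := A / (4 * (m' + 1)) with hc
  have hc0 : 0 < c := by positivity
  have hcm : (m' + 1) * c = A / 4 := by
    rw [hc]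
    field_simp
  have hck : c ≤ k := by nlinarith
  refine ⟨c, hc0, ⌈8 * (C0 + s + 1)⌉₊ + ⌈(C0 + s) / A⌉₊, ?_⟩
  intro q hq m hm1 hm2 V H S hcls hind
  have hqR1 : 8 * (C0 + s + 1) ≤ q := by
    have h1 := Nat.le_ceil (8 * (C0 + s + 1))
    have h2 : ((⌈8 * (C0 + s + 1)⌉₊ : ℕ) : ℝ) ≤ q := by
      exact_mod_cast (Nat.le_add_right _ _).trans hq
    linarith
  have hqR2 : C0 + s ≤ A * q := by
    have h1 := Nat.le_ceil ((C0 + s) / A)
    have h2 : ((⌈(C0 + s) / A⌉₊ : ℕ) : ℝ) ≤ q := by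
      exact_mod_cast (Nat.le_add_left _ _).trans hq
    have h3 := h1.trans h2
    rw [div_le_iff₀ hA] at h3
    linarith
  have hq1 : (1 : ℝ) ≤ q := by nlinarith
  have hq1n : 1 ≤ q := by exact_mod_cast hq1
  have hq0 : (0 : ℝ) ≤ q := by linarith
  set β : ℝ := c * q + 2 * k ^ 2 * δ * q + (1 + k * δ) * s + 1 with hβ
  have hβ0 : 0 < β := by positivity
  set b : ℕ := ⌈β⌉₊ with hb
  have hbl : β ≤ b := Nat.le_ceil β
  have hbu : (b : ℝ) < β + 1 := Nat.ceil_lt_add_one hβ0.le
  have hb1n : 1 ≤ b := Nat.one_le_iff_ne_zero.mpr (Nat.pos_iff_ne_zero.mp (Nat.ceil_pos.mpr hβ0))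
  have hb1 : (1 : ℝ) ≤ b := by exact_mod_cast hb1n
  have hmb : (m' : ℝ) * b + c * q ≤ 3 * (A * q) + C0 := by
    have h1 : (m' : ℝ) * b ≤ m' * (β + 1) := by
      apply mul_le_mul_of_nonneg_left hbu.le
      linarith
    have h2 : m' * (β + 1) + c * q = ((m' + 1) * c) * q + 2 * (A * q) + C0 := by
      rw [hβ, hC0, hAdef]
      ring
    have h3 : ((m' + 1) * c) * q = A * q / 4 := by
      rw [hcm]
      ring
    have h4 : 0 ≤ A * q := by positivity
    linarith
  have hAq : A * q ≤ q / 8 := by nlinarith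
  have hmbq : (m' : ℝ) * b ≤ q := by
    have : 0 ≤ c * q := by positivity
    linarith
  have hKq : (q : ℝ) ≤ m := by
    have h1 : ((k * (q - 1) + 1 : ℕ) : ℝ) ≤ m := by exact_mod_cast hm1
    push_cast [Nat.cast_sub hq1n] at h1
    nlinarith
  have hmbn : m' * b ≤ m := by
    have h1 : ((m' * b : ℕ) : ℝ) ≤ (m : ℝ) := by
      push_cast
      linarith
    exact_mod_cast h1
  obtain ⟨M, hM⟩ : ∃ M : ℕ, M = m - m' * b := ⟨_, rfl⟩
  have hMs : M + m' * b = m := by omega
  have hMR : (M : ℝ) = m - m' * b := by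
    have h1 : ((M + m' * b : ℕ) : ℝ) = (m : ℝ) := by rw [hMs]
    push_cast at h1
    linarith
  intro R
  -- the weights
  let w : Fin s ⊕ Fin m' → ℕ := Sum.elim (fun i => M / s + if (i : ℕ) < M % s then 1 else 0)
    (fun _ => b)
  have hcsum : ∑ i, w i = m := by
    rw [Fintype.sum_sum_type]
    simp only [w, Sum.elim_inl, Sum.elim_inr]
    rw [sum_weights s M hs, Finset.sum_const, Finset.card_univ, Fintype.card_fin, smul_eq_mul]
    exact hMs
  obtain ⟨I, hI, hwt⟩ := hW (l + 1) m q V H hcls (Fin s ⊕ Fin m') (Sum.elim S R) w hcsum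
  set IS : Finset (Fin s) := univ.filter (fun i => Sum.inl i ∈ I) with hIS
  set IR : Finset (Fin m') := univ.filter (fun j => Sum.inr j ∈ I) with hIR
  have memS : ∀ i, i ∈ IS ↔ Sum.inl i ∈ I := by intro i; simp [hIS]
  have memR : ∀ i, i ∈ IR ↔ Sum.inr i ∈ I := by intro i; simp [hIR]
  have hIeq : I = IS.disjSum IR := by
    ext x
    rcases x with x | x
    · rw [Finset.inl_mem_disjSum, memS]
    · rw [Finset.inr_mem_disjSum, memR]
  have hwt2 : q ≤ ∑ i ∈ IS, (M / s + if (i : ℕ) < M % s then 1 else 0) + IR.card * b := by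
    rw [hIeq, Finset.sum_disjSum] at hwt
    simpa [w] using hwt
  have hcS : ((∑ i ∈ IS, (M / s + if (i : ℕ) < M % s then 1 else 0) : ℕ) : ℝ) * s ≤
      IS.card * (M + s) := by
    have h1 : (∑ i ∈ IS, (M / s + if (i : ℕ) < M % s then 1 else 0)) ≤ IS.card * (M / s + 1) := by
      rw [← smul_eq_mul]
      apply Finset.sum_le_card_nsmul
      intro i _
      split_ifs <;> omega
    have h2 : ((∑ i ∈ IS, (M / s + if (i : ℕ) < M % s then 1 else 0) : ℕ) : ℝ) ≤
        IS.card * (((M / s : ℕ) : ℝ) + 1) := by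
      exact_mod_cast h1
    have h3 : ((M / s : ℕ) : ℝ) * s ≤ M := by
      exact_mod_cast Nat.div_mul_le_self M s
    calc ((∑ i ∈ IS, (M / s + if (i : ℕ) < M % s then 1 else 0) : ℕ) : ℝ) * s
        ≤ (IS.card * (((M / s : ℕ) : ℝ) + 1)) * s := mul_le_mul_of_nonneg_right h2 hs0.le
      _ = IS.card * (((M / s : ℕ) : ℝ) * s + s) := by ring
      _ ≤ IS.card * (M + s) := by
        apply mul_le_mul_of_nonneg_left _ (Nat.cast_nonneg _)
        linarith
  have hwtR : (q : ℝ) * s ≤ IS.card * (M + s) + IR.card * b * s := by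
    have h1 : (q : ℝ) ≤ ((∑ i ∈ IS, (M / s + if (i : ℕ) < M % s then 1 else 0) : ℕ) : ℝ) +
        IR.card * b := by exact_mod_cast hwt2
    have h2 := mul_le_mul_of_nonneg_right h1 hs0.le
    rw [add_mul] at h2
    linarith
  -- the independent part of the sample
  have hISind : Ind (l + 1) H S IS := by
    intro e he hcard
    have h1 := hI (e.map Function.Embedding.inl) ?_ ?_
    · have h2 : (e.map Function.Embedding.inl).image (Sum.elim S R) = e.image S := by
        ext v
        simp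
      rw [h2] at h1
      exact h1
    · intro x hx
      rw [Finset.mem_map] at hx
      obtain ⟨i, hi, rfl⟩ := hx
      exact (memS i).mp (he hi)
    · rw [Finset.card_map]
      exact hcard
  have hISc := hind IS hISind
  have hM0 : (0 : ℝ) ≤ M := Nat.cast_nonneg _
  have hmR : (m' : ℝ) = k * (q' - 1) + 1 := by
    rw [hm']
    push_cast [Nat.cast_sub hq']
    ring
  -- (1)
  have hIRc : q' ≤ IR.card := by
    by_contra hcon
    have h1 : (IR.card : ℝ) ≤ q' - 1 := by
      have : IR.card + 1 ≤ q' := by omega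
      have : ((IR.card + 1 : ℕ) : ℝ) ≤ q' := by exact_mod_cast this
      push_cast at this
      linarith
    exact step1 hk1 hδ hq0 hs0 hmR hMR hb1 hm'0 hM0 hck hm2 hbl hISc h1 hwtR
  -- (2)
  have hISl : (1 / k - 4 * k * (m' : ℝ) * δ) * s ≤ IS.card := by
    by_contra hcon
    push Not at hcon
    have h1 : (IR.card : ℝ) ≤ m' := by
      have := Finset.card_le_univ IR
      rw [Fintype.card_fin] at this
      exact_mod_cast this
    exact step2 hk1 hδ hs0 hq0 hMR hb1 hm'0 hM0 hc0.le hm2 h4 hmb hqR2 h1 hwtR hcon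
  -- conclusion
  obtain ⟨J, hJ, hJc⟩ := Finset.exists_subset_card_eq hIRc
  refine ⟨J, hJc, ?_⟩
  rintro e he hcard ⟨-, hder⟩
  have hsub : (univ.filter fun i : Fin s => H (insert (S i) (e.image R))) ⊆ univ \ IS := by
    intro i hi
    rw [Finset.mem_filter] at hi
    rw [Finset.mem_sdiff]
    refine ⟨Finset.mem_univ _, fun hiS => ?_⟩
    have h1 := hI (insert (Sum.inl i) (e.map Function.Embedding.inr)) ?_ ?_
    · apply h1
      have h2 : (insert (Sum.inl i) (e.map Function.Embedding.inr)).image (Sum.elim S R) =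
          insert (S i) (e.image R) := by
        rw [Finset.image_insert]
        congr 1
        ext v
        simp
      rw [h2]
      exact hi.2
    · intro x hx
      rcases Finset.mem_insert.mp hx with hx | hx
      · rw [hx]
        exact (memS i).mp hiS
      · rw [Finset.mem_map] at hx
        obtain ⟨j, hj, rfl⟩ := hx
        exact (memR j).mp (hJ (he hj))
    · rw [Finset.card_insert_of_notMem, Finset.card_map, hcard]
      intro hx
      rw [Finset.mem_map] at hx
      obtain ⟨j, -, hj⟩ := hx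
      simp at hj
  have hc1 := Finset.card_le_card hsub
  rw [Finset.card_sdiff_of_subset (Finset.subset_univ _), Finset.card_univ, Fintype.card_fin] at hc1
  have hISle : IS.card ≤ s := by
    have := Finset.card_le_univ IS
    rwa [Fintype.card_fin] at this
  have hc2 : ((univ.filter fun i : Fin s => H (insert (S i) (e.image R))).card : ℝ) ≤
      s - IS.card := by
    rw [← Nat.cast_sub hISle]
    exact_mod_cast hc1
  have : (1 - 1 / (k : ℝ) + 4 * k * (m' : ℝ) * δ) * s =
      s - (1 / k - 4 * k * (m' : ℝ) * δ) * s := by ring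
  linarith

end Pool.Agent.N407.CT.CLM
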